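import Mathlib

/-!
A graph `G` with a free action of `ℤ` such that `G/ℤ` is Liouville, simple random walk on `G` visits
every translate of a (connected) fundamental domain infinitely often, and `G` is not Liouville.
-/

open MeasureTheory ProbabilityTheory Filter
open scoped ENNReal

namespace Pool.Agent.Results.MP_09df17_pr.ZCover

noncomputable section

/-! ## Definitions used in the statement -/

section defs

/-- One step of simple random walk on `G` from the vertex `x`: a uniformly chosen neighbour of `x`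
(if `x` has no neighbour at all, the walk stays at `x`). -/
def srwStep {V : Type} (G : SimpleGraph V) [G.LocallyFinite] (x : V) : PMF V :=
  open scoped Classical in
  if h : (G.neighborFinset x).Nonempty then PMF.uniformOfFinset (G.neighborFinset x) h
  else PMF.pure x

/-- The transition kernel of simple random walk on `G` (the vertex set carries the discrete
sigma-algebra). -/
def srwKernel {V : Type} [MeasurableSpace V] [DiscreteMeasurableSpace V]
    (G : SimpleGraph V) [G.LocallyFinite] : Kernel V V where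
  toFun x := (srwStep G x).toMeasure
  measurable' := Measurable.of_discrete

instance {V : Type} [MeasurableSpace V] [DiscreteMeasurableSpace V]
    (G : SimpleGraph V) [G.LocallyFinite] : IsMarkovKernel (srwKernel G) :=
  ⟨fun x => PMF.toMeasure.isProbabilityMeasure (srwStep G x)⟩

/-- The law of the next vertex, given the vertices visited up to time `n`. -/
def srwHistory {V : Type} [MeasurableSpace V] [DiscreteMeasurableSpace V]
    (G : SimpleGraph V) [G.LocallyFinite] (n : ℕ) :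
    Kernel ((i : Finset.Iic n) → V) V :=
  (srwKernel G).comap (fun h => h ⟨n, Finset.mem_Iic.2 le_rfl⟩) (measurable_pi_apply _)

instance {V : Type} [MeasurableSpace V] [DiscreteMeasurableSpace V]
    (G : SimpleGraph V) [G.LocallyFinite] (n : ℕ) : IsMarkovKernel (srwHistory G n) := by
  unfold srwHistory; infer_instance

/-- The law, on the space of trajectories `ℕ → V`, of simple random walk on `G` started at `x`
(constructed with the Ionescu-Tulcea theorem). -/
def srw {V : Type} [MeasurableSpace V] [DiscreteMeasurableSpace V]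
    (G : SimpleGraph V) [G.LocallyFinite] (x : V) : Measure (ℕ → V) :=
  Kernel.trajMeasure (X := fun _ => V) (Measure.dirac x) (srwHistory G)

/-- `h` is harmonic on `G`: at every vertex it equals its average over the neighbours. -/
def IsHarmonic {V : Type} (G : SimpleGraph V) [G.LocallyFinite] (h : V → ℝ) : Prop :=
  ∀ x, h x = (∑ y ∈ G.neighborFinset x, h y) / (G.degree x : ℝ)

/-- `G` is Liouville: every bounded harmonic function on `G` is constant. -/
def Liouville {V : Type} (G : SimpleGraph V) [G.LocallyFinite] : Prop :=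
  ∀ h : V → ℝ, (∃ C, ∀ x, |h x| ≤ C) → IsHarmonic G h → ∃ c, ∀ x, h x = c

/-- The quotient `H = G/ℤ` is Liouville: every bounded function `f` on the set of `ℤ`-orbits which
is harmonic for simple random walk on `G` read modulo the action (that is: for every vertex `x`,
`f` at the orbit of `x` is the average of `f` at the orbits of the neighbours of `x`) is constant. -/
def QuotientLiouville {V : Type} [AddAction ℤ V] (G : SimpleGraph V) [G.LocallyFinite] : Prop :=
  ∀ f : AddAction.orbitRel.Quotient ℤ V → ℝ, (∃ C, ∀ p, |f p| ≤ C) →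
    (∀ x : V, f (Quotient.mk _ x) =
      (∑ y ∈ G.neighborFinset x, f (Quotient.mk _ y)) / (G.degree x : ℝ)) →
    ∃ c, ∀ p, f p = c

end defs

instance {V : Type} [MeasurableSpace V] [DiscreteMeasurableSpace V]
    (G : SimpleGraph V) [G.LocallyFinite] (x : V) : IsProbabilityMeasure (srw G x) := by
  unfold srw; infer_instance

section gen

variable {V : Type} [MeasurableSpace V] [DiscreteMeasurableSpace V]

lemma markov (G : SimpleGraph V) [G.LocallyFinite] (x : V) (n : ℕ)
    (F : ((i : Finset.Iic n) → V) → ℝ≥0∞) (hF : Measurable F) (f : V → ℝ≥0∞) :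
    ∫⁻ ω, F (Preorder.frestrictLe n ω) * f (ω (n + 1)) ∂(srw G x)
      = ∫⁻ ω, F (Preorder.frestrictLe n ω) * (∫⁻ y, f y ∂(srwKernel G (ω n))) ∂(srw G x) := by
  have h := Kernel.map_frestrictLe_trajMeasure_compProd_eq_map_trajMeasure
    (X := fun _ => V) (μ₀ := Measure.dirac x) (κ := srwHistory G) (a := n)
  have hf : Measurable f := Measurable.of_discrete
  have h1 : ∫⁻ ω, F (Preorder.frestrictLe n ω) * f (ω (n + 1)) ∂(srw G x)
      = ∫⁻ p : ((i : Finset.Iic n) → V) × V, F p.1 * f p.2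
        ∂((srw G x).map (fun ω => (Preorder.frestrictLe n ω, ω (n + 1)))) := by
    rw [lintegral_map]
    · exact (hF.comp measurable_fst).mul (hf.comp measurable_snd)
    · fun_prop
  rw [h1]
  unfold srw
  rw [← h, Measure.lintegral_compProd, lintegral_map]
  · congr 1
    ext ω
    exact lintegral_const_mul (μ := srwKernel G (ω n)) (F (Preorder.frestrictLe n ω)) hf
  · exact Measurable.lintegral_kernel_prod_right' (κ := srwHistory G n)
      (f := fun p : ((i : Finset.Iic n) → V) × V => F p.1 * f p.2)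
      ((hF.comp measurable_fst).mul (hf.comp measurable_snd))
  · fun_prop
  · exact (hF.comp measurable_fst).mul (hf.comp measurable_snd)


end gen


/-! ### binomial kernel -/

def bin : ℕ → ℤ → ℝ
  | 0, x => if x = 0 then 1 else 0
  | n + 1, x => (bin n (x - 1) + bin n (x + 1)) / 2

lemma bin_nonneg (n : ℕ) (x : ℤ) : 0 ≤ bin n x := by
  induction n generalizing x with
  | zero => unfold bin; split_ifs <;> norm_num
  | succ n ih => unfold bin; have := ih (x - 1); have := ih (x + 1); linarith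

lemma bin_far (n : ℕ) (x : ℤ) (h : (n : ℤ) < |x|) : bin n x = 0 := by
  induction n generalizing x with
  | zero =>
    unfold bin
    rw [if_neg]
    rintro rfl
    simp at h
  | succ n ih =>
    unfold bin
    rw [ih, ih]
    · norm_num
    · push_cast at h
      have : |x| ≤ |x + 1| + 1 := by
        have := abs_add_le (x + 1) (-1)
        simp at this
        exact this
      linarith
    · push_cast at h
      have : |x| ≤ |x - 1| + 1 := by
        have := abs_add_le (x - 1) 1
        simp at this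
        exact this
      linarith

lemma bin_odd (n : ℕ) (x : ℤ) (h : ¬ Even (x + n)) : bin n x = 0 := by
  induction n generalizing x with
  | zero =>
    unfold bin
    rw [if_neg]
    rintro rfl
    simp at h
  | succ n ih =>
    unfold bin
    rw [ih, ih]
    · norm_num
    · intro h'; apply h; push_cast; rwa [show x + ((n : ℤ) + 1) = x + 1 + n by ring]
    · intro h'; apply h; push_cast
      rw [show x + ((n : ℤ) + 1) = (x - 1 + n) + 2 by ring]
      exact h'.add (by decide)

lemma bin_choose (n j : ℕ) : bin n (2 * (j : ℤ) - n) = (n.choose j : ℝ) / 2 ^ n := by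
  induction n generalizing j with
  | zero =>
    unfold bin
    rcases j with _ | j
    · simp
    · simp
      omega
  | succ n ih =>
    unfold bin
    rcases j with _ | j
    · have h1 : bin n (2 * ((0 : ℕ) : ℤ) - ((n + 1 : ℕ) : ℤ) - 1) = 0 := by
        apply bin_far
        push_cast
        rw [abs_of_nonpos (by linarith [Int.natCast_nonneg n])]
        linarith
      rw [h1]
      have := ih 0
      rw [show 2 * ((0 : ℕ) : ℤ) - ((n + 1 : ℕ) : ℤ) + 1 = 2 * ((0 : ℕ) : ℤ) - (n : ℤ) by push_cast; ring, this]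
      simp
      field_simp
      ring
    · have h1 := ih j
      have h2 := ih (j + 1)
      rw [show 2 * ((j + 1 : ℕ) : ℤ) - ((n + 1 : ℕ) : ℤ) - 1 = 2 * (j : ℤ) - (n : ℤ) by push_cast; ring, h1]
      rw [show 2 * ((j + 1 : ℕ) : ℤ) - ((n + 1 : ℕ) : ℤ) + 1 = 2 * ((j + 1 : ℕ) : ℤ) - (n : ℤ) by push_cast; ring, h2]
      rw [Nat.choose_succ_succ]
      push_cast
      field_simp
      ring

lemma central_sq (m : ℕ) : ((m.centralBinom : ℝ) / 4 ^ m) ^ 2 * (2 * m + 1) ≤ 1 := by
  induction m with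
  | zero => simp
  | succ m ih =>
    have h := Nat.succ_mul_centralBinom_succ m
    have h' : ((m : ℝ) + 1) * ((m + 1).centralBinom : ℝ) = 2 * (2 * m + 1) * (m.centralBinom : ℝ) := by
      exact_mod_cast h
    have hm : (0 : ℝ) < (m : ℝ) + 1 := by positivity
    have h2 : ((m + 1).centralBinom : ℝ) / 4 ^ (m + 1) = (m.centralBinom : ℝ) / 4 ^ m * ((2 * m + 1) / (2 * (m + 1))) := by
      have : ((m + 1).centralBinom : ℝ) = 2 * (2 * m + 1) * (m.centralBinom : ℝ) / (m + 1) := by
        field_simp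
        linarith
      rw [this]
      field_simp
      ring
    rw [h2]
    have h3 : ((2 * (m : ℝ) + 1) / (2 * (m + 1))) ^ 2 * (2 * ((m + 1 : ℕ) : ℝ) + 1) ≤ 2 * m + 1 := by
      push_cast
      rw [div_pow, div_mul_eq_mul_div, div_le_iff₀ (by positivity)]
      nlinarith [Nat.cast_nonneg (α := ℝ) m]
    calc _ = ((m.centralBinom : ℝ) / 4 ^ m) ^ 2 * (((2 * (m : ℝ) + 1) / (2 * (m + 1))) ^ 2 * (2 * ((m + 1 : ℕ) : ℝ) + 1)) := by ring
      _ ≤ ((m.centralBinom : ℝ) / 4 ^ m) ^ 2 * (2 * m + 1) := by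
        apply mul_le_mul_of_nonneg_left h3 (by positivity)
      _ ≤ 1 := ih

lemma middle_sq (n : ℕ) : ((n.choose (n / 2) : ℝ) / 2 ^ n) ^ 2 * (n + 1) ≤ 1 := by
  rcases Nat.even_or_odd' n with ⟨m, rfl | rfl⟩
  · have := central_sq m
    rw [Nat.centralBinom] at this
    rw [show 2 * m / 2 = m by omega]
    rw [show (2 : ℝ) ^ (2 * m) = 4 ^ m by rw [pow_mul]; norm_num]
    push_cast
    exact this
  · have := central_sq (m + 1)
    rw [Nat.centralBinom] at this
    have h1 : (2 * (m + 1)).choose (m + 1) = 2 * (2 * m + 1).choose m := by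
      rw [show 2 * (m + 1) = (2 * m + 1) + 1 by ring, Nat.choose_succ_succ]
      rw [Nat.choose_symm_half]
      ring
    rw [h1] at this
    rw [show (2 * m + 1) / 2 = m by omega]
    have h2 : (((2 * (2 * m + 1).choose m : ℕ) : ℝ) / 4 ^ (m + 1)) = ((2 * m + 1).choose m : ℝ) / 2 ^ (2 * m + 1) := by
      rw [show (4 : ℝ) ^ (m + 1) = 2 * 2 ^ (2 * m + 1) by
        rw [show (4 : ℝ) = 2 ^ 2 by norm_num, ← pow_mul, ← pow_succ']; congr 1]
      push_cast
      field_simp
    rw [h2] at this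
    push_cast at this ⊢
    have h3 : 0 ≤ (((2 * m + 1).choose m : ℝ) / 2 ^ (2 * m + 1)) ^ 2 := by positivity
    nlinarith

lemma bin_sq (n : ℕ) (x : ℤ) : bin n x ^ 2 * (n + 1) ≤ 1 := by
  by_cases h : Even (x + n)
  · by_cases h2 : (n : ℤ) < |x|
    · rw [bin_far n x h2]; simp
    · obtain ⟨k, hk⟩ := h
      have hk0 : 0 ≤ k := by
        have := neg_abs_le x
        omega
      obtain ⟨j, rfl⟩ := Int.eq_ofNat_of_zero_le hk0
      have : x = 2 * (j : ℤ) - n := by linarith
      rw [this, bin_choose]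
      calc _ ≤ ((n.choose (n / 2) : ℝ) / 2 ^ n) ^ 2 * (n + 1) := by
            gcongr
            exact_mod_cast Nat.choose_le_middle j n
        _ ≤ 1 := middle_sq n
  · rw [bin_odd n x h]; simp

lemma bin_le (n : ℕ) (x : ℤ) : bin n x ≤ 1 / Real.sqrt (n + 1) := by
  have h := bin_sq n x
  have hn : (0 : ℝ) < n + 1 := by positivity
  rw [le_div_iff₀ (Real.sqrt_pos.2 hn)]
  refine (sq_le_one_iff₀ (mul_nonneg (bin_nonneg n x) (Real.sqrt_nonneg _))).1 ?_
  rw [mul_pow, Real.sq_sqrt hn.le]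
  exact h

/-! ### the three-dimensional kernel -/

def ker3 (n : ℕ) (t a b : ℤ) : ℝ := bin n t * bin n (2 * a - t) * bin n (2 * b - t)

lemma ker3_nonneg (n : ℕ) (t a b : ℤ) : 0 ≤ ker3 n t a b :=
  mul_nonneg (mul_nonneg (bin_nonneg _ _) (bin_nonneg _ _)) (bin_nonneg _ _)

lemma ker3_succ (n : ℕ) (t a b : ℤ) :
    ker3 (n + 1) t a b =
      (ker3 n (t + 1) a b + ker3 n (t + 1) (a + 1) b + ker3 n (t + 1) a (b + 1)
        + ker3 n (t + 1) (a + 1) (b + 1)
        + ker3 n (t - 1) a b + ker3 n (t - 1) (a - 1) b + ker3 n (t - 1) a (b - 1)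
        + ker3 n (t - 1) (a - 1) (b - 1)) / 8 := by
  have h1 : ∀ u : ℤ, 2 * u - (t + 1) = 2 * u - t - 1 := fun u => by ring
  have h2 : ∀ u : ℤ, 2 * (u + 1) - (t + 1) = 2 * u - t + 1 := fun u => by ring
  have h3 : ∀ u : ℤ, 2 * u - (t - 1) = 2 * u - t + 1 := fun u => by ring
  have h4 : ∀ u : ℤ, 2 * (u - 1) - (t - 1) = 2 * u - t - 1 := fun u => by ring
  have e : ∀ x : ℤ, bin (n + 1) x = (bin n (x - 1) + bin n (x + 1)) / 2 := fun x => rfl
  unfold ker3
  rw [e t, e (2 * a - t), e (2 * b - t)]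
  simp only [h2, h4]
  simp only [h1, h3]
  ring

lemma ker3_zero (t a b : ℤ) : ker3 0 t a b = if t = 0 ∧ a = 0 ∧ b = 0 then 1 else 0 := by
  unfold ker3 bin
  by_cases h : t = 0
  · subst h
    by_cases ha : a = 0
    · subst ha
      by_cases hb : b = 0
      · subst hb; simp
      · simp [hb]
    · simp [ha]
  · simp [h]

lemma ker3_far (n : ℕ) (t a b : ℤ) (h : (n : ℤ) < |2 * a - t|) : ker3 n t a b = 0 := by
  unfold ker3
  rw [bin_far n _ h]
  simp

lemma ker3_le (n : ℕ) (t a b : ℤ) :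
    ker3 n t a b ≤ 4 * (1 / Real.sqrt (n + 1) - 1 / Real.sqrt (n + 2)) := by
  set x := Real.sqrt (n + 1) with hx
  set y := Real.sqrt (n + 2) with hy
  have hn : (0 : ℝ) ≤ n := Nat.cast_nonneg n
  have hx0 : 0 < x := Real.sqrt_pos.2 (by positivity)
  have hy0 : 0 < y := Real.sqrt_pos.2 (by positivity)
  have hx2 : x ^ 2 = n + 1 := Real.sq_sqrt (by positivity)
  have hy2 : y ^ 2 = n + 2 := Real.sq_sqrt (by positivity)
  have h1 : ker3 n t a b ≤ 1 / x * (1 / x) * (1 / x) := by
    unfold ker3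
    have := bin_le n t
    have := bin_le n (2 * a - t)
    have := bin_le n (2 * b - t)
    have := bin_nonneg n t
    have := bin_nonneg n (2 * a - t)
    have := bin_nonneg n (2 * b - t)
    gcongr
  refine h1.trans ?_
  have hxy : x < y := Real.sqrt_lt_sqrt (by positivity) (by linarith)
  have h2 : y * (x + y) ≤ 4 * x ^ 2 := by
    have h3 : x * y ≤ x ^ 2 + 1 / 2 := by nlinarith
    nlinarith
  have h4 : 1 / x - 1 / y = 1 / (x * y * (x + y)) := by
    field_simp
    nlinarith
  rw [h4]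
  rw [div_mul_div_comm, div_mul_div_comm, mul_one_div, div_le_div_iff₀ (by positivity) (by positivity)]
  nlinarith [mul_le_mul_of_nonneg_left h2 hx0.le]

/-- potential at a vertex -/
lemma green_le (t a b : ℤ) (m : ℕ) (hm : (m : ℤ) ≤ |2 * a - t|) :
    ∑' n, ENNReal.ofReal (ker3 n t a b) ≤ ENNReal.ofReal (4 / Real.sqrt (m + 1)) := by
  rw [ENNReal.tsum_eq_iSup_nat]
  apply iSup_le
  intro N
  have key : ∑ n ∈ Finset.range N, ker3 n t a b ≤ 4 / Real.sqrt (m + 1) := by
    have : ∀ N : ℕ, m ≤ N → ∑ n ∈ Finset.range N, ker3 n t a b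
        ≤ 4 / Real.sqrt (m + 1) - 4 / Real.sqrt (N + 1) := by
      intro N hN
      induction N, hN using Nat.le_induction with
      | base =>
        rw [Finset.sum_eq_zero]
        · simp
        · intro n hn
          apply ker3_far
          have := Finset.mem_range.1 hn
          omega
      | succ N hN ih =>
        rw [Finset.sum_range_succ]
        have := ker3_le N t a b
        have e : ((N + 1 : ℕ) : ℝ) + 1 = N + 2 := by push_cast; ring
        rw [e]
        have e2 : 4 * (1 / Real.sqrt ((N : ℝ) + 1) - 1 / Real.sqrt (N + 2)) =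
          4 / Real.sqrt (N + 1) - 4 / Real.sqrt (N + 2) := by ring
        linarith
    rcases le_total m N with h | h
    · have h1 := this N h
      have h2 : 0 ≤ 4 / Real.sqrt ((N : ℝ) + 1) := by positivity
      linarith
    · have h1 : ∑ n ∈ Finset.range N, ker3 n t a b ≤ ∑ n ∈ Finset.range m, ker3 n t a b :=
        Finset.sum_le_sum_of_subset_of_nonneg (Finset.range_mono h) (fun n _ _ => ker3_nonneg _ _ _ _)
      have h2 := this m le_rfl
      have h3 : 0 ≤ 4 / Real.sqrt ((m : ℝ) + 1) := by positivity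
      linarith
  rw [← ENNReal.ofReal_sum_of_nonneg (fun n _ => ker3_nonneg _ _ _ _)]
  exact ENNReal.ofReal_le_ofReal key



structure Vtx where
  t : ℤ
  a : ℤ
  b : ℤ
  z : ℤ
deriving DecidableEq

/-- label of the upward edge -/
def lab (t a b e d : ℤ) : ℤ :=
  if t % 2 = 1 ∧ a = 4 ^ t.natAbs ∧ b = 0 ∧ e = 0 ∧ d = 0 then 1 else 0

def up (x : Vtx) (e d : ℤ) : Vtx := ⟨x.t + 1, x.a + e, x.b + d, x.z + lab x.t x.a x.b e d⟩

def dn (x : Vtx) (e d : ℤ) : Vtx :=
  ⟨x.t - 1, x.a - e, x.b - d, x.z - lab (x.t - 1) (x.a - e) (x.b - d) e d⟩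

lemma dn_up (x : Vtx) (e d : ℤ) : dn (up x e d) e d = x := by
  unfold up dn; simp

lemma up_dn (x : Vtx) (e d : ℤ) : up (dn x e d) e d = x := by
  unfold up dn; simp

def bits : Finset (ℤ × ℤ) := {(0, 0), (1, 0), (0, 1), (1, 1)}

def nbrs (x : Vtx) : Finset Vtx :=
  (bits.image (fun p => up x p.1 p.2)) ∪ (bits.image (fun p => dn x p.1 p.2))

lemma nbrs_symm (x y : Vtx) (h : y ∈ nbrs x) : x ∈ nbrs y := by
  unfold nbrs at *
  simp only [Finset.mem_union, Finset.mem_image] at *
  rcases h with ⟨p, hp, rfl⟩ | ⟨p, hp, rfl⟩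
  · right; exact ⟨p, hp, dn_up _ _ _⟩
  · left; exact ⟨p, hp, up_dn _ _ _⟩

lemma nbrs_irrefl (x : Vtx) : x ∉ nbrs x := by
  unfold nbrs
  simp only [Finset.mem_union, Finset.mem_image, not_or, not_exists, not_and]
  refine ⟨fun p _ h => ?_, fun p _ h => ?_⟩
  · have := congrArg Vtx.t h; simp [up] at this
  · have := congrArg Vtx.t h; simp [dn] at this

/-- the graph -/
def Gr : SimpleGraph Vtx where
  Adj x y := y ∈ nbrs x
  symm := ⟨fun x y h => nbrs_symm x y h⟩
  loopless := ⟨fun x h => nbrs_irrefl x h⟩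

instance : Gr.LocallyFinite := fun x =>
  Fintype.ofFinset (nbrs x) (fun y => by rfl)

lemma nbrFinset (x : Vtx) : Gr.neighborFinset x = nbrs x := by
  ext y
  rw [SimpleGraph.mem_neighborFinset]
  rfl

lemma up_inj (x : Vtx) : Function.Injective (fun p : ℤ × ℤ => up x p.1 p.2) := by
  rintro ⟨e, d⟩ ⟨e', d'⟩ h
  have h1 := congrArg Vtx.a h
  have h2 := congrArg Vtx.b h
  simp [up] at h1 h2
  simp [h1, h2]

lemma dn_inj (x : Vtx) : Function.Injective (fun p : ℤ × ℤ => dn x p.1 p.2) := by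
  rintro ⟨e, d⟩ ⟨e', d'⟩ h
  have h1 := congrArg Vtx.a h
  have h2 := congrArg Vtx.b h
  simp [dn] at h1 h2
  simp [h1, h2]

lemma ud_disj (x : Vtx) : Disjoint (bits.image (fun p => up x p.1 p.2))
    (bits.image (fun p => dn x p.1 p.2)) := by
  rw [Finset.disjoint_left]
  intro y h1 h2
  simp only [Finset.mem_image] at h1 h2
  obtain ⟨p, _, rfl⟩ := h1
  obtain ⟨q, _, h⟩ := h2
  have := congrArg Vtx.t h
  simp [up, dn] at this
  omega

lemma sum_nbrs {M : Type*} [AddCommMonoid M] (x : Vtx) (f : Vtx → M) :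
    ∑ y ∈ nbrs x, f y = (f (up x 0 0) + f (up x 1 0) + f (up x 0 1) + f (up x 1 1))
      + (f (dn x 0 0) + f (dn x 1 0) + f (dn x 0 1) + f (dn x 1 1)) := by
  unfold nbrs
  rw [Finset.sum_union (ud_disj x), Finset.sum_image (fun a _ b _ h => up_inj x h),
    Finset.sum_image (fun a _ b _ h => dn_inj x h)]
  unfold bits
  simp [add_assoc]

lemma card_nbrs (x : Vtx) : (nbrs x).card = 8 := by
  rw [Finset.card_eq_sum_ones, sum_nbrs]
  rfl

lemma degree_eq (x : Vtx) : Gr.degree x = 8 := by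
  rw [← SimpleGraph.card_neighborFinset_eq_degree, nbrFinset, card_nbrs]

lemma mem_nbrs {x y : Vtx} : y ∈ nbrs x ↔
    y = up x 0 0 ∨ y = up x 1 0 ∨ y = up x 0 1 ∨ y = up x 1 1 ∨
    y = dn x 0 0 ∨ y = dn x 1 0 ∨ y = dn x 0 1 ∨ y = dn x 1 1 := by
  unfold nbrs bits
  simp only [Finset.mem_union, Finset.mem_image, Finset.mem_insert, Finset.mem_singleton]
  constructor
  · rintro (⟨p, (rfl | rfl | rfl | rfl), rfl⟩ | ⟨p, (rfl | rfl | rfl | rfl), rfl⟩) <;> simp
  · rintro (rfl | rfl | rfl | rfl | rfl | rfl | rfl | rfl)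
    · exact Or.inl ⟨(0, 0), by simp⟩
    · exact Or.inl ⟨(1, 0), by simp⟩
    · exact Or.inl ⟨(0, 1), by simp⟩
    · exact Or.inl ⟨(1, 1), by simp⟩
    · exact Or.inr ⟨(0, 0), by simp⟩
    · exact Or.inr ⟨(1, 0), by simp⟩
    · exact Or.inr ⟨(0, 1), by simp⟩
    · exact Or.inr ⟨(1, 1), by simp⟩

lemma adj_up (x : Vtx) {e d : ℤ} (he : e = 0 ∨ e = 1) (hd : d = 0 ∨ d = 1) :
    Gr.Adj x (up x e d) := by
  change up x e d ∈ nbrs x
  rw [mem_nbrs]
  rcases he with rfl | rfl <;> rcases hd with rfl | rfl <;> simp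

/-- the action -/
instance : AddAction ℤ Vtx where
  vadd k x := ⟨x.t, x.a, x.b, x.z + k⟩
  zero_vadd x := by
    change (⟨x.t, x.a, x.b, x.z + 0⟩ : Vtx) = x
    simp
  add_vadd k l x := by
    change (⟨x.t, x.a, x.b, x.z + (k + l)⟩ : Vtx) = ⟨x.t, x.a, x.b, x.z + l + k⟩
    simp; ring

lemma vadd_def (k : ℤ) (x : Vtx) : k +ᵥ x = ⟨x.t, x.a, x.b, x.z + k⟩ := rfl

lemma up_vadd (k : ℤ) (x : Vtx) (e d : ℤ) : up (k +ᵥ x) e d = k +ᵥ up x e d := by
  simp [up, vadd_def]; ring

lemma dn_vadd (k : ℤ) (x : Vtx) (e d : ℤ) : dn (k +ᵥ x) e d = k +ᵥ dn x e d := by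
  simp [dn, vadd_def]; ring

lemma adj_vadd (k : ℤ) (x y : Vtx) : Gr.Adj (k +ᵥ x) (k +ᵥ y) ↔ Gr.Adj x y := by
  change k +ᵥ y ∈ nbrs (k +ᵥ x) ↔ y ∈ nbrs x
  rw [mem_nbrs, mem_nbrs]
  simp only [up_vadd, dn_vadd, vadd_left_cancel_iff]

lemma free_vadd (k : ℤ) (hk : k ≠ 0) (x : Vtx) : k +ᵥ x ≠ x := by
  intro h
  have := congrArg Vtx.z h
  simp [vadd_def] at this
  exact hk this

/-! connectivity -/

lemma lab_b {t a b e d : ℤ} (hb : b ≠ 0) : lab t a b e d = 0 := by
  unfold lab; rw [if_neg]; tauto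

lemma lab_e {t a b e d : ℤ} (hb : e ≠ 0) : lab t a b e d = 0 := by
  unfold lab; rw [if_neg]; tauto

lemma lab_d {t a b e d : ℤ} (hb : d ≠ 0) : lab t a b e d = 0 := by
  unfold lab; rw [if_neg]; tauto

lemma lab_t {t a b e d : ℤ} (ht : t % 2 ≠ 1) : lab t a b e d = 0 := by
  unfold lab; rw [if_neg]; tauto

lemma up_eq_of_lab {t a b z e d : ℤ} (h : lab t a b e d = 0) :
    up ⟨t, a, b, z⟩ e d = ⟨t + 1, a + e, b + d, z⟩ := by
  unfold up; simp [h]

lemma reach_t (t a b z : ℤ) : Gr.Reachable ⟨t, a, b, z⟩ ⟨t + 1, a, b, z⟩ := by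
  by_cases hb : b = 0
  · subst hb
    have h1 : Gr.Adj ⟨t, a, 0, z⟩ ⟨t + 1, a, 1, z⟩ := by
      have := adj_up ⟨t, a, 0, z⟩ (e := 0) (d := 1) (by simp) (by simp)
      rw [up_eq_of_lab (lab_d (by norm_num))] at this
      simpa using this
    have h2 : Gr.Adj ⟨t + 1, a, 1, z⟩ ⟨t + 1 + 1, a, 1, z⟩ := by
      have := adj_up ⟨t + 1, a, 1, z⟩ (e := 0) (d := 0) (by simp) (by simp)
      rw [up_eq_of_lab (lab_b (by norm_num))] at this
      simpa using this
    have h3 : Gr.Adj ⟨t + 1, a, 0, z⟩ ⟨t + 1 + 1, a, 1, z⟩ := by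
      have := adj_up ⟨t + 1, a, 0, z⟩ (e := 0) (d := 1) (by simp) (by simp)
      rw [up_eq_of_lab (lab_d (by norm_num))] at this
      simpa using this
    exact h1.reachable.trans (h2.reachable.trans h3.symm.reachable)
  · have := adj_up ⟨t, a, b, z⟩ (e := 0) (d := 0) (by simp) (by simp)
    rw [up_eq_of_lab (lab_b hb)] at this
    simp only [add_zero] at this
    exact this.reachable

lemma reach_a (t a b z : ℤ) : Gr.Reachable ⟨t, a, b, z⟩ ⟨t, a + 1, b, z⟩ := by
  have := adj_up ⟨t, a, b, z⟩ (e := 1) (d := 0) (by simp) (by simp)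
  rw [up_eq_of_lab (lab_e (by norm_num))] at this
  simp only [add_zero] at this
  exact this.reachable.trans (reach_t t (a + 1) b z).symm

lemma reach_b (t a b z : ℤ) : Gr.Reachable ⟨t, a, b, z⟩ ⟨t, a, b + 1, z⟩ := by
  have := adj_up ⟨t, a, b, z⟩ (e := 0) (d := 1) (by simp) (by simp)
  rw [up_eq_of_lab (lab_d (by norm_num))] at this
  simp only [add_zero] at this
  exact this.reachable.trans (reach_t t a (b + 1) z).symm

lemma reach_int {X : Type*} {r : X → X → Prop} (refl : ∀ x, r x x) (symm : ∀ x y, r x y → r y x)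
    (trans : ∀ x y z, r x y → r y z → r x z) (f : ℤ → X) (h : ∀ n, r (f n) (f (n + 1))) (m n : ℤ) :
    r (f m) (f n) := by
  have key : ∀ k : ℕ, ∀ m, r (f m) (f (m + k)) := by
    intro k
    induction k with
    | zero => intro m; simpa using refl _
    | succ k ih =>
      intro m
      have := h (m + k)
      rw [add_assoc] at this
      push_cast
      exact trans _ _ _ (ih m) this
  rcases le_total m n with hmn | hmn
  · obtain ⟨k, hk⟩ := Int.eq_ofNat_of_zero_le (sub_nonneg.2 hmn)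
    have := key k m
    rwa [← hk, add_sub_cancel] at this
  · obtain ⟨k, hk⟩ := Int.eq_ofNat_of_zero_le (sub_nonneg.2 hmn)
    have := key k n
    rw [← hk, add_sub_cancel] at this
    exact symm _ _ this

lemma gr_reach_int (f : ℤ → Vtx) (h : ∀ n, Gr.Reachable (f n) (f (n + 1))) (m n : ℤ) :
    Gr.Reachable (f m) (f n) :=
  reach_int (fun x => SimpleGraph.Reachable.refl x) (fun _ _ h => h.symm)
    (fun _ _ _ h1 h2 => h1.trans h2) f h m n

lemma gr_connected : Gr.Connected := by
  have hz : ∀ z, Gr.Reachable ⟨1, 4, 0, z⟩ ⟨1, 4, 0, z + 1⟩ := by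
    intro z
    have := adj_up ⟨1, 4, 0, z⟩ (e := 0) (d := 0) (by simp) (by simp)
    have e1 : up ⟨1, 4, 0, z⟩ 0 0 = ⟨1 + 1, 4, 0, z + 1⟩ := by
      unfold up lab; simp
    rw [e1] at this
    exact this.reachable.trans (reach_t 1 4 0 (z + 1)).symm
  have key : ∀ x : Vtx, Gr.Reachable x ⟨1, 4, 0, 0⟩ := by
    rintro ⟨t, a, b, z⟩
    have h1 := gr_reach_int (fun n => ⟨n, a, b, z⟩) (fun n => reach_t n a b z) t 1
    have h2 := gr_reach_int (fun n => ⟨1, n, b, z⟩) (fun n => reach_a 1 n b z) a 4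
    have h3 := gr_reach_int (fun n => ⟨1, 4, n, z⟩) (fun n => reach_b 1 4 n z) b 0
    have h4 := gr_reach_int (fun n => ⟨1, 4, 0, n⟩) (fun n => hz n) z 0
    exact h1.trans (h2.trans (h3.trans h4))
  have : Nonempty Vtx := ⟨⟨0, 0, 0, 0⟩⟩
  exact ⟨fun x y => (key x).trans (key y).symm⟩

/-- the fundamental domain -/
def Dom : Set Vtx := {x | x.z = x.t / 2}

lemma dom_fund (x : Vtx) : ∃! y, y ∈ Dom ∧ y ∈ AddAction.orbit ℤ x := by
  refine ⟨⟨x.t, x.a, x.b, x.t / 2⟩, ⟨rfl, ?_⟩, ?_⟩
  · rw [AddAction.mem_orbit_iff]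
    exact ⟨x.t / 2 - x.z, by simp [vadd_def]⟩
  · rintro y ⟨hy, ho⟩
    rw [AddAction.mem_orbit_iff] at ho
    obtain ⟨k, rfl⟩ := ho
    simp only [Dom, Set.mem_ofPred_eq, vadd_def] at hy
    simp [vadd_def, hy]

/-- element of the domain -/
def dv (t a b : ℤ) : Dom := ⟨⟨t, a, b, t / 2⟩, rfl⟩

lemma dom_adj (x y : Dom) (h : Gr.Adj x.1 y.1) : (Gr.induce Dom).Reachable x y := by
  apply SimpleGraph.Adj.reachable
  exact h

lemma dreach_even (t a b e d : ℤ) (ht : t % 2 = 0) (he : e = 0 ∨ e = 1) (hd : d = 0 ∨ d = 1) :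
    (Gr.induce Dom).Reachable (dv t a b) (dv (t + 1) (a + e) (b + d)) := by
  apply dom_adj
  have := adj_up ⟨t, a, b, t / 2⟩ he hd
  rw [up_eq_of_lab (lab_t (by omega))] at this
  have e1 : t / 2 = (t + 1) / 2 := by omega
  unfold dv
  simp only
  rw [← e1]
  exact this

lemma dreach_special (t : ℤ) (ht : t % 2 = 1) :
    (Gr.induce Dom).Reachable (dv t (4 ^ t.natAbs) 0) (dv (t + 1) (4 ^ t.natAbs) 0) := by
  apply dom_adj
  have := adj_up ⟨t, 4 ^ t.natAbs, 0, t / 2⟩ (e := 0) (d := 0) (by simp) (by simp)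
  have e1 : up ⟨t, 4 ^ t.natAbs, 0, t / 2⟩ 0 0 = ⟨t + 1, 4 ^ t.natAbs, 0, (t + 1) / 2⟩ := by
    unfold up lab
    simp [ht]
    omega
  rw [e1] at this
  exact this

lemma dreach_t_even (t a b : ℤ) (ht : t % 2 = 0) :
    (Gr.induce Dom).Reachable (dv t a b) (dv (t + 1) a b) := by
  have := dreach_even t a b 0 0 ht (by simp) (by simp)
  simpa using this

lemma dreach_a_even (t a b : ℤ) (ht : t % 2 = 0) :
    (Gr.induce Dom).Reachable (dv t a b) (dv t (a + 1) b) := by
  have h1 := dreach_even t a b 1 0 ht (by simp) (by simp)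
  have h2 := dreach_t_even t (a + 1) b ht
  simp only [add_zero] at h1
  exact h1.trans h2.symm

lemma dreach_b_even (t a b : ℤ) (ht : t % 2 = 0) :
    (Gr.induce Dom).Reachable (dv t a b) (dv t a (b + 1)) := by
  have h1 := dreach_even t a b 0 1 ht (by simp) (by simp)
  have h2 := dreach_t_even t a (b + 1) ht
  simp only [add_zero] at h1
  exact h1.trans h2.symm

lemma d_reach_int (f : ℤ → Dom) (h : ∀ n, (Gr.induce Dom).Reachable (f n) (f (n + 1))) (m n : ℤ) :
    (Gr.induce Dom).Reachable (f m) (f n) :=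
  reach_int (fun x => SimpleGraph.Reachable.refl x) (fun _ _ h => h.symm)
    (fun _ _ _ h1 h2 => h1.trans h2) f h m n

lemma dreach_ab_even (t a b a' b' : ℤ) (ht : t % 2 = 0) :
    (Gr.induce Dom).Reachable (dv t a b) (dv t a' b') := by
  have h1 := d_reach_int (fun n => dv t n b) (fun n => dreach_a_even t n b ht) a a'
  have h2 := d_reach_int (fun n => dv t a' n) (fun n => dreach_b_even t a' n ht) b b'
  exact h1.trans h2

lemma dreach_ab (t a b a' b' : ℤ) :
    (Gr.induce Dom).Reachable (dv t a b) (dv t a' b') := by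
  rcases Int.emod_two_eq_zero_or_one t with ht | ht
  · exact dreach_ab_even t a b a' b' ht
  · have h1 := dreach_t_even (t - 1) a b (by omega)
    have h2 := dreach_t_even (t - 1) a' b' (by omega)
    rw [sub_add_cancel] at h1 h2
    exact h1.symm.trans ((dreach_ab_even (t - 1) a b a' b' (by omega)).trans h2)

lemma dreach_t (t a b : ℤ) : (Gr.induce Dom).Reachable (dv t a b) (dv (t + 1) a b) := by
  rcases Int.emod_two_eq_zero_or_one t with ht | ht
  · exact dreach_t_even t a b ht
  · exact (dreach_ab t a b _ _).trans ((dreach_special t ht).trans (dreach_ab _ _ _ _ _))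

lemma dom_connected : (Gr.induce Dom).Connected := by
  have key : ∀ x : Dom, (Gr.induce Dom).Reachable x (dv 0 0 0) := by
    rintro ⟨⟨t, a, b, z⟩, h⟩
    have hz : z = t / 2 := h
    subst hz
    have h1 := d_reach_int (fun n => dv n a b) (fun n => dreach_t n a b) t 0
    have h2 := dreach_ab 0 a b 0 0
    exact h1.trans h2
  have : Nonempty Dom := ⟨dv 0 0 0⟩
  exact ⟨fun x y => (key x).trans (key y).symm⟩



/-- Choquet-Deny: one-sided inequality -/
lemma choquet_le {A : Type*} [AddCommGroup A] (S : Finset A) (g : A → ℝ) (C : ℝ)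
    (hC : ∀ x, |g x| ≤ C) (hg : ∀ x, (S.card : ℝ) * g x = ∑ s ∈ S, g (x + s)) (s : A) (hs : s ∈ S)
    (x : A) : g (x + s) ≤ g x := by
  classical
  have hC0 : 0 ≤ C := (abs_nonneg _).trans (hC x)
  have hS : 0 < (S.card : ℝ) := by
    have : 0 < S.card := Finset.card_pos.2 ⟨s, hs⟩
    exact_mod_cast this
  have hS1 : 1 ≤ (S.card : ℝ) := by
    have : 1 ≤ S.card := Finset.card_pos.2 ⟨s, hs⟩
    exact_mod_cast this
  set d : A → ℝ := fun y => g (y + s) - g y with hd
  have hdh : ∀ y, (S.card : ℝ) * d y = ∑ s' ∈ S, d (y + s') := by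
    intro y
    simp only [hd]
    rw [mul_sub, hg, hg, ← Finset.sum_sub_distrib]
    apply Finset.sum_congr rfl
    intro s' _
    rw [add_right_comm]
  have hdb : BddAbove (Set.range d) := by
    refine ⟨2 * C, ?_⟩
    rintro _ ⟨y, rfl⟩
    have h1 := abs_le.1 (hC (y + s))
    have h2 := abs_le.1 (hC y)
    simp only [hd]
    linarith [h1.2, h2.1]
  set D := sSup (Set.range d) with hD
  have hle : ∀ y, d y ≤ D := fun y => le_csSup hdb ⟨y, rfl⟩
  suffices hD0 : D ≤ 0 by
    have := (hle x).trans hD0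
    simp only [hd] at this
    linarith
  by_contra hpos
  push Not at hpos
  -- the chain along multiples of `s`
  have step : ∀ y (δ : ℝ), D - δ ≤ d y → D - S.card * δ ≤ d (y + s) := by
    intro y δ hy
    have h1 := hdh y
    rw [← Finset.add_sum_erase S _ hs] at h1
    have h2 : ∑ s' ∈ S.erase s, d (y + s') ≤ ((S.card : ℝ) - 1) * D := by
      calc _ ≤ ∑ s' ∈ S.erase s, D := Finset.sum_le_sum (fun i _ => hle _)
        _ = ((S.card : ℝ) - 1) * D := by
          rw [Finset.sum_const, Finset.card_erase_of_mem hs, nsmul_eq_mul, Nat.cast_sub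
            (Finset.card_pos.2 ⟨s, hs⟩)]
          simp
    have h3 : (S.card : ℝ) * (D - δ) ≤ S.card * d y := by gcongr
    nlinarith
  have chain : ∀ (j : ℕ) y (δ : ℝ), D - δ ≤ d y → D - (S.card : ℝ) ^ j * δ ≤ d (y + j • s) := by
    intro j
    induction j with
    | zero => intro y δ h; simpa using h
    | succ j ih =>
      intro y δ h
      have := step _ _ (ih y δ h)
      rw [add_assoc, ← succ_nsmul] at this
      rw [pow_succ]
      linarith
  have tele : ∀ (m : ℕ) y, g (y + m • s) - g y = ∑ j ∈ Finset.range m, d (y + j • s) := by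
    intro m y
    induction m with
    | zero => simp
    | succ m ih =>
      rw [Finset.sum_range_succ, ← ih]
      simp only [hd]
      rw [succ_nsmul, ← add_assoc]
      ring
  obtain ⟨m, hm⟩ := exists_nat_gt ((2 * C + 1) / D)
  have hm' : 2 * C + 1 < m * D := by
    rw [div_lt_iff₀ hpos] at hm
    exact hm
  have hm0 : 0 < (m : ℝ) := by
    by_contra h
    push Not at h
    have : (m : ℝ) * D ≤ 0 := mul_nonpos_of_nonpos_of_nonneg h hpos.le
    linarith
  set δ : ℝ := 1 / (m * (S.card : ℝ) ^ m) with hδ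
  have hδ0 : 0 < δ := by positivity
  obtain ⟨_, ⟨y, rfl⟩, hy⟩ := exists_lt_of_lt_csSup (Set.range_nonempty d) (show D - δ < D by linarith)
  have h1 := tele m y
  have h2 : (m : ℝ) * (D - (S.card : ℝ) ^ m * δ) ≤ ∑ j ∈ Finset.range m, d (y + j • s) := by
    calc _ = ∑ j ∈ Finset.range m, (D - (S.card : ℝ) ^ m * δ) := by
          rw [Finset.sum_const, Finset.card_range, nsmul_eq_mul]
      _ ≤ _ := by
        apply Finset.sum_le_sum
        intro j hj
        refine le_trans ?_ (chain j y δ hy.le)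
        have : (S.card : ℝ) ^ j ≤ (S.card : ℝ) ^ m :=
          pow_le_pow_right₀ hS1 (Finset.mem_range.1 hj).le
        nlinarith
  have h3 : (m : ℝ) * ((S.card : ℝ) ^ m * δ) = 1 := by
    rw [hδ]; field_simp
  have h4 := abs_le.1 (hC (y + m • s))
  have h5 := abs_le.1 (hC y)
  have h6 : (m : ℝ) * (D - (S.card : ℝ) ^ m * δ) = m * D - 1 := by
    rw [mul_sub, h3]
  linarith [h4.2, h5.1]

lemma choquet {A : Type*} [AddCommGroup A] (S : Finset A) (g : A → ℝ) (C : ℝ)
    (hC : ∀ x, |g x| ≤ C) (hg : ∀ x, (S.card : ℝ) * g x = ∑ s ∈ S, g (x + s)) (s : A) (hs : s ∈ S)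
    (x : A) : g (x + s) = g x := by
  apply le_antisymm (choquet_le S g C hC hg s hs x)
  have := choquet_le S (fun y => - g y) C (fun y => by rw [abs_neg]; exact hC y)
    (fun y => by rw [mul_neg, hg, Finset.sum_neg_distrib]) s hs x
  linarith


/-! ### the potential -/

def k3 (n : ℕ) (t a b : ℤ) : ℝ≥0∞ := ENNReal.ofReal (ker3 n t a b)

def Av (f : ℤ → ℤ → ℤ → ℝ≥0∞) (t a b : ℤ) : ℝ≥0∞ :=
  (f (t + 1) a b + f (t + 1) (a + 1) b + f (t + 1) a (b + 1) + f (t + 1) (a + 1) (b + 1)
    + f (t - 1) a b + f (t - 1) (a - 1) b + f (t - 1) a (b - 1) + f (t - 1) (a - 1) (b - 1)) / 8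

lemma k3_succ (n : ℕ) (t a b : ℤ) : k3 (n + 1) t a b = Av (k3 n) t a b := by
  unfold k3 Av
  rw [ker3_succ, ENNReal.ofReal_div_of_pos (by norm_num)]
  have h := ker3_nonneg n
  have g1 := h (t + 1) a b
  have g2 := h (t + 1) (a + 1) b
  have g3 := h (t + 1) a (b + 1)
  have g4 := h (t + 1) (a + 1) (b + 1)
  have g5 := h (t - 1) a b
  have g6 := h (t - 1) (a - 1) b
  have g7 := h (t - 1) a (b - 1)
  have g8 := h (t - 1) (a - 1) (b - 1)
  rw [ENNReal.ofReal_add (by positivity) g8]
  rw [ENNReal.ofReal_add (by positivity) g7]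
  rw [ENNReal.ofReal_add (by positivity) g6]
  rw [ENNReal.ofReal_add (by positivity) g5]
  rw [ENNReal.ofReal_add (by positivity) g4]
  rw [ENNReal.ofReal_add (by positivity) g3]
  rw [ENNReal.ofReal_add g1 g2]
  simp

lemma Av_tsum {ι : Type*} (f : ι → ℤ → ℤ → ℤ → ℝ≥0∞) (t a b : ℤ) :
    Av (fun t a b => ∑' i, f i t a b) t a b = ∑' i, Av (f i) t a b := by
  unfold Av
  simp only [div_eq_mul_inv]
  rw [ENNReal.tsum_mul_right]
  simp only [ENNReal.tsum_add]

/-- centres of the potential (endpoints of the special edges) -/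
def ct (i : ℤ × Bool) : ℤ := if i.2 then i.1 + 1 else i.1

def ca (i : ℤ × Bool) : ℤ := 4 ^ i.1.natAbs

def q (m : ℕ) (t a b : ℤ) : ℝ≥0∞ := ∑' i : ℤ × Bool, k3 m (t - ct i) (a - ca i) b

lemma q_succ (m : ℕ) (t a b : ℤ) : q (m + 1) t a b = Av (q m) t a b := by
  unfold q
  rw [Av_tsum]
  congr 1
  ext i
  rw [k3_succ]
  unfold Av
  congr 1
  simp only [sub_add_eq_add_sub, sub_right_comm]

def R (m : ℕ) (t a b : ℤ) : ℝ≥0∞ := ∑' n : ℕ, q (n + m) t a b

lemma R_eq (m : ℕ) (t a b : ℤ) : R m t a b = q m t a b + R (m + 1) t a b := by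
  unfold R
  rw [tsum_eq_zero_add' ENNReal.summable]
  simp only [zero_add]
  congr 2
  ext n
  rw [show n + 1 + m = n + (m + 1) by ring]

lemma R_succ (m : ℕ) (t a b : ℤ) : R (m + 1) t a b = Av (R m) t a b := by
  unfold R
  rw [Av_tsum]
  congr 1
  ext n
  rw [← add_assoc, q_succ]

lemma q_zero_special (t a b : ℤ) (hb : b = 0) (ha : a = 4 ^ t.natAbs ∨ a = 4 ^ (t - 1).natAbs) :
    1 ≤ q 0 t a b := by
  subst hb
  unfold q
  rcases ha with ha | ha
  · refine le_trans ?_ (ENNReal.le_tsum ((t, false) : ℤ × Bool))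
    simp [ct, ca, k3, ker3_zero, ha]
  · refine le_trans ?_ (ENNReal.le_tsum ((t - 1, true) : ℤ × Bool))
    simp [ct, ca, k3, ker3_zero, ha]

lemma le_four_pow (m : ℕ) : (m : ℤ) + 1 ≤ 4 ^ m := by
  have : m + 1 ≤ 4 ^ m := Nat.lt_pow_self (by norm_num)
  exact_mod_cast this

lemma R_finite_zero : R 0 0 0 0 ≠ ∞ := by
  unfold R q
  rw [ENNReal.tsum_comm]
  have key : ∀ i : ℤ × Bool, ∑' n, k3 (n + 0) (0 - ct i) (0 - ca i) 0
      ≤ ENNReal.ofReal (4 * (1 / 2) ^ i.1.natAbs) := by
    rintro ⟨s, c⟩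
    simp only [add_zero]
    have hs := le_four_pow s.natAbs
    have h1 : (((4 ^ s.natAbs : ℕ) : ℤ)) ≤ |2 * (0 - ca (s, c)) - (0 - ct (s, c))| := by
      have : ca (s, c) = 4 ^ s.natAbs := rfl
      rw [this]
      have h2 : ct (s, c) ≤ s.natAbs + 1 := by
        cases c
        · change s ≤ s.natAbs + 1
          omega
        · change s + 1 ≤ s.natAbs + 1
          omega
      rw [le_abs]
      right
      rw [Nat.cast_pow]
      change (4 : ℤ) ^ s.natAbs ≤ _
      linarith
    refine (green_le _ _ _ _ h1).trans (ENNReal.ofReal_le_ofReal ?_)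
    have h3 : (2 : ℝ) ^ s.natAbs ≤ Real.sqrt ((4 ^ s.natAbs : ℕ) + 1) := by
      apply Real.le_sqrt_of_sq_le
      push_cast
      rw [← pow_mul, mul_comm, pow_mul]
      norm_num
    rw [one_div, inv_pow, ← div_eq_mul_inv]
    gcongr
  refine ne_top_of_le_ne_top ?_ (ENNReal.tsum_le_tsum key)
  have hsum : Summable (fun i : ℤ × Bool => 4 * (1 / 2 : ℝ) ^ i.1.natAbs) := by
    have h1 : Summable (fun i : ℤ => (1 / 2 : ℝ) ^ i.natAbs) := by
      apply Summable.of_nat_of_neg
      · simpa using summable_geometric_of_lt_one (by norm_num : (0 : ℝ) ≤ 1 / 2) (by norm_num)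
      · simpa using summable_geometric_of_lt_one (by norm_num : (0 : ℝ) ≤ 1 / 2) (by norm_num)
    have h2 : Summable (fun i : ℤ × Bool => (1 / 2 : ℝ) ^ i.1.natAbs) := by
      have h3 : Summable (fun i : ℤ × Bool => (1 / 2 : ℝ) ^ i.1.natAbs * (1 : ℝ)) :=
        Summable.mul_of_nonneg h1 (Summable.of_finite (f := fun _ : Bool => (1 : ℝ)))
          (fun i => by positivity) (fun _ => by simp)
      simpa using h3
    exact h2.mul_left 4
  rw [← ENNReal.ofReal_tsum_of_nonneg (fun i => by positivity) hsum]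
  exact ENNReal.ofReal_ne_top

lemma R_tendsto : Tendsto (fun m => R m 0 0 0) atTop (nhds 0) := by
  have h := R_finite_zero
  unfold R at h ⊢
  simp only [add_zero] at h
  exact ENNReal.tendsto_sum_nat_add (fun n => q n 0 0 0) h

lemma le_Av (c : ℝ≥0∞) (f : ℤ → ℤ → ℤ → ℝ≥0∞) (h : ∀ t a b, c ≤ f t a b) (t a b : ℤ) :
    c ≤ Av f t a b := by
  unfold Av
  rw [ENNReal.le_div_iff_mul_le (by norm_num) (by norm_num)]
  calc c * 8 = c + c + c + c + c + c + c + c := by ring
    _ ≤ _ := by gcongr <;> exact h _ _ _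

lemma R_small (c : ℝ≥0∞) (hc : 0 < c) : ∃ t a b, R 0 t a b < c := by
  by_contra hcon
  push Not at hcon
  have h1 : ∀ m, ∀ t a b, c ≤ R m t a b := by
    intro m
    induction m with
    | zero => exact hcon
    | succ m ih =>
      intro t a b
      rw [R_succ]
      exact le_Av c _ ih t a b
  have h2 := (R_tendsto.eventually_lt_const hc).exists
  obtain ⟨m, hm⟩ := h2
  exact absurd (h1 m 0 0 0) (not_le.2 hm)

/-- averaging over the neighbours in the graph -/
def PG (F : Vtx → ℝ≥0∞) (x : Vtx) : ℝ≥0∞ := (∑ y ∈ nbrs x, F y) / 8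

def Rv (x : Vtx) : ℝ≥0∞ := R 0 x.t x.a x.b

lemma PG_Rv (x : Vtx) : PG Rv x = R 1 x.t x.a x.b := by
  rw [R_succ]
  unfold PG Rv
  rw [sum_nbrs]
  unfold Av up dn
  simp only [add_zero, sub_zero]
  congr 1
  ring

/-- endpoints of special edges -/
def Spec : Set Vtx := {x | x.b = 0 ∧ (x.a = 4 ^ x.t.natAbs ∨ x.a = 4 ^ (x.t - 1).natAbs)}

lemma Rv_ge (x : Vtx) : PG Rv x ≤ Rv x := by
  rw [PG_Rv]
  unfold Rv
  rw [R_eq 0]
  exact le_add_self

lemma Rv_spec (x : Vtx) (hx : x ∈ Spec) : 1 + PG Rv x ≤ Rv x := by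
  rw [PG_Rv]
  unfold Rv
  rw [R_eq 0]
  have := q_zero_special x.t x.a x.b hx.1 hx.2
  gcongr

lemma z_of_notSpec (x : Vtx) (hx : x ∉ Spec) (y : Vtx) (hy : y ∈ nbrs x) : y.z = x.z := by
  have h1 : ∀ e d, (up x e d).z = x.z := by
    intro e d
    unfold up
    simp only [add_eq_left]
    unfold lab
    rw [if_neg]
    rintro ⟨_, h2, h3, _⟩
    exact hx ⟨h3, Or.inl h2⟩
  have h2 : ∀ e d, (dn x e d).z = x.z := by
    intro e d
    unfold dn
    simp only [sub_eq_self]
    unfold lab
    rw [if_neg]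
    rintro ⟨_, h2, h3, h4, h5⟩
    apply hx
    subst h4 h5
    simp only [sub_zero] at h2 h3
    exact ⟨h3, Or.inr h2⟩
  rw [mem_nbrs] at hy
  rcases hy with rfl | rfl | rfl | rfl | rfl | rfl | rfl | rfl <;> first | exact h1 _ _ | exact h2 _ _

lemma PG_mono {F F' : Vtx → ℝ≥0∞} (h : ∀ x, F x ≤ F' x) (x : Vtx) : PG F x ≤ PG F' x := by
  unfold PG
  gcongr
  exact h _

lemma PG_const (c : ℝ≥0∞) (x : Vtx) : PG (fun _ => c) x = c := by
  unfold PG
  rw [Finset.sum_const, card_nbrs, nsmul_eq_mul, mul_comm]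
  exact ENNReal.mul_div_cancel_right (by norm_num) (by norm_num)

lemma PG_add (F F' : Vtx → ℝ≥0∞) (x : Vtx) : PG (fun y => F y + F' y) x = PG F x + PG F' x := by
  unfold PG
  rw [Finset.sum_add_distrib, ENNReal.add_div]

lemma PG_congr {F F' : Vtx → ℝ≥0∞} {x : Vtx} (h : ∀ y ∈ nbrs x, F y = F' y) :
    PG F x = PG F' x := by
  unfold PG
  rw [Finset.sum_congr rfl h]

/-! ### a nonconstant bounded harmonic function on the cover -/

def ind (x : Vtx) : ℝ≥0∞ := if x.z ≤ 0 then 1 else 0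

lemma ind_le (x : Vtx) : ind x ≤ 1 := by
  unfold ind; split_ifs <;> simp

lemma PG_ind (x : Vtx) (hx : x ∉ Spec) : PG ind x = ind x := by
  rw [← PG_const (ind x) x]
  apply PG_congr
  intro y hy
  unfold ind
  rw [z_of_notSpec x hx y hy]

def lo (x : Vtx) : ℝ≥0∞ := ind x - Rv x

def hi (x : Vtx) : ℝ≥0∞ := ind x + Rv x

lemma lo_sub (x : Vtx) : lo x ≤ PG lo x := by
  unfold lo
  rw [tsub_le_iff_right]
  by_cases hx : x ∈ Spec
  · calc ind x ≤ 1 := ind_le x
      _ ≤ 1 + PG Rv x := le_self_add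
      _ ≤ Rv x := Rv_spec x hx
      _ ≤ _ := le_add_self
  · calc ind x = PG ind x := (PG_ind x hx).symm
      _ ≤ PG (fun y => (ind y - Rv y) + Rv y) x := PG_mono (fun y => le_tsub_add) x
      _ = PG (fun y => ind y - Rv y) x + PG Rv x := PG_add _ _ _
      _ ≤ _ := by gcongr; exact Rv_ge x

lemma hi_super (x : Vtx) : PG hi x ≤ hi x := by
  unfold hi
  rw [PG_add]
  by_cases hx : x ∈ Spec
  · calc PG ind x + PG Rv x ≤ 1 + PG Rv x := by
          gcongr
          rw [← PG_const 1 x]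
          exact PG_mono ind_le x
      _ ≤ Rv x := Rv_spec x hx
      _ ≤ _ := le_add_self
  · rw [PG_ind x hx]
    gcongr
    exact Rv_ge x

def hn (n : ℕ) : Vtx → ℝ≥0∞ := PG^[n] lo

lemma hn_succ (n : ℕ) (x : Vtx) : hn (n + 1) x = PG (hn n) x := by
  unfold hn
  rw [Function.iterate_succ_apply']

lemma hn_mono_succ (n : ℕ) (x : Vtx) : hn n x ≤ hn (n + 1) x := by
  induction n generalizing x with
  | zero => exact lo_sub x
  | succ n ih =>
    rw [hn_succ, hn_succ (n + 1)]
    exact PG_mono ih x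

lemma hn_mono (x : Vtx) : Monotone (fun n => hn n x) := monotone_nat_of_le_succ (fun n => hn_mono_succ n x)

lemma hn_le_hi (n : ℕ) (x : Vtx) : hn n x ≤ hi x := by
  induction n generalizing x with
  | zero => exact tsub_le_self.trans le_self_add
  | succ n ih =>
    rw [hn_succ]
    exact (PG_mono ih x).trans (hi_super x)

lemma hn_le_one (n : ℕ) (x : Vtx) : hn n x ≤ 1 := by
  induction n generalizing x with
  | zero => exact tsub_le_self.trans (ind_le x)
  | succ n ih =>
    rw [hn_succ, ← PG_const 1 x]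
    exact PG_mono ih x

def hE (x : Vtx) : ℝ≥0∞ := ⨆ n, hn n x

lemma hE_le_one (x : Vtx) : hE x ≤ 1 := iSup_le (fun n => hn_le_one n x)

lemma hE_harm (x : Vtx) : hE x = PG hE x := by
  have h1 : PG hE x = ⨆ n, PG (hn n) x := by
    unfold PG hE
    rw [ENNReal.finsetSum_iSup_of_monotone (fun y => hn_mono y), ENNReal.iSup_div]
  rw [h1]
  apply le_antisymm
  · apply iSup_le
    intro n
    refine le_trans (hn_mono_succ n x) ?_
    rw [hn_succ]
    exact le_iSup (fun n => PG (hn n) x) n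
  · apply iSup_le
    intro n
    rw [← hn_succ]
    exact le_iSup (fun n => hn n x) (n + 1)

def hR (x : Vtx) : ℝ := (hE x).toReal

lemma hR_harm (x : Vtx) : hR x = (∑ y ∈ nbrs x, hR y) / 8 := by
  unfold hR
  conv_lhs => rw [hE_harm x]
  unfold PG
  rw [ENNReal.toReal_div, ENNReal.toReal_sum]
  · simp
  · intro y _
    exact ne_top_of_le_ne_top ENNReal.one_ne_top (hE_le_one y)

lemma hR_nonconst : ¬ ∃ c, ∀ x, hR x = c := by
  rintro ⟨c, hc⟩
  obtain ⟨t, a, b, hR⟩ := R_small (1 / 4) (by norm_num)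
  have h0 : hE ⟨t, a, b, 0⟩ = hE ⟨t, a, b, 1⟩ := by
    have h1 := hc ⟨t, a, b, 0⟩
    have h2 := hc ⟨t, a, b, 1⟩
    rw [← h2] at h1
    unfold Pool.Agent.Results.MP_09df17_pr.ZCover.hR at h1
    rwa [ENNReal.toReal_eq_toReal_iff'] at h1
    · exact ne_top_of_le_ne_top ENNReal.one_ne_top (hE_le_one _)
    · exact ne_top_of_le_ne_top ENNReal.one_ne_top (hE_le_one _)
  have h1 : (3 : ℝ≥0∞) / 4 ≤ hE ⟨t, a, b, 0⟩ := by
    refine le_trans ?_ (le_iSup (fun n => hn n ⟨t, a, b, 0⟩) 0)
    change (3 : ℝ≥0∞) / 4 ≤ lo ⟨t, a, b, 0⟩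
    unfold lo ind Rv
    simp only [le_refl, if_true]
    calc (3 : ℝ≥0∞) / 4 = 1 - 1 / 4 := by
          rw [← ENNReal.toReal_eq_toReal_iff' (by finiteness) (by finiteness),
            ENNReal.toReal_sub_of_le (by norm_num) (by norm_num)]
          norm_num
      _ ≤ 1 - R 0 t a b := tsub_le_tsub_left hR.le _
  have h2 : hE ⟨t, a, b, 1⟩ ≤ 1 / 4 := by
    apply iSup_le
    intro n
    refine (hn_le_hi n _).trans ?_
    unfold hi ind Rv
    simp only [show ¬ ((1 : ℤ) ≤ 0) by norm_num, if_false, zero_add]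
    exact hR.le
  rw [h0] at h1
  have h3 := h1.trans h2
  rw [← ENNReal.toReal_le_toReal (by finiteness) (by finiteness)] at h3
  norm_num at h3

/-! ### one-dimensional recurrence -/

def wr (j : ℤ) : ℕ → ℤ → ℝ
  | 0, t => if t = j then 0 else 1
  | n + 1, t => if t = j then 0 else (wr j n (t - 1) + wr j n (t + 1)) / 2

lemma wr_nonneg (j : ℤ) (n : ℕ) (t : ℤ) : 0 ≤ wr j n t := by
  induction n generalizing t with
  | zero => unfold wr; split_ifs <;> norm_num
  | succ n ih =>
    unfold wr; split_ifs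
    · exact le_rfl
    · have := ih (t - 1); have := ih (t + 1); linarith

lemma wr_le_one (j : ℤ) (n : ℕ) (t : ℤ) : wr j n t ≤ 1 := by
  induction n generalizing t with
  | zero => unfold wr; split_ifs <;> norm_num
  | succ n ih =>
    unfold wr; split_ifs
    · norm_num
    · have := ih (t - 1); have := ih (t + 1); linarith

lemma wr_anti_succ (j : ℤ) (n : ℕ) (t : ℤ) : wr j (n + 1) t ≤ wr j n t := by
  induction n generalizing t with
  | zero =>
    by_cases h : t = j
    · simp [wr, h]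
    · have h1 := wr_le_one j 1 t
      have h2 : wr j 0 t = 1 := by simp [wr, h]
      rw [h2]; exact h1
  | succ n ih =>
    by_cases h : t = j
    · simp [wr, h]
    · have h1 := ih (t - 1)
      have h2 := ih (t + 1)
      have e1 : wr j (n + 1 + 1) t = (wr j (n + 1) (t - 1) + wr j (n + 1) (t + 1)) / 2 := by
        conv_lhs => unfold wr
        rw [if_neg h]
      have e2 : wr j (n + 1) t = (wr j n (t - 1) + wr j n (t + 1)) / 2 := by
        conv_lhs => unfold wr
        rw [if_neg h]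
      rw [e1, e2]
      linarith

lemma wr_tendsto (j t : ℤ) : Tendsto (fun n => wr j n t) atTop (nhds 0) := by
  have hanti : ∀ t, Antitone (fun n => wr j n t) := fun t =>
    antitone_nat_of_succ_le (fun n => wr_anti_succ j n t)
  have hbdd : ∀ t, BddBelow (Set.range (fun n => wr j n t)) := fun t =>
    ⟨0, by rintro _ ⟨n, rfl⟩; exact wr_nonneg j n t⟩
  set L : ℤ → ℝ := fun t => ⨅ n, wr j n t with hL
  have hlim : ∀ t, Tendsto (fun n => wr j n t) atTop (nhds (L t)) := fun t =>
    tendsto_atTop_ciInf (hanti t) (hbdd t)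
  have hL0 : ∀ t, 0 ≤ L t := fun t => ge_of_tendsto' (hlim t) (fun n => wr_nonneg j n t)
  have hL1 : ∀ t, L t ≤ 1 := fun t => le_of_tendsto' (hlim t) (fun n => wr_le_one j n t)
  have hLj : L j = 0 := by
    have : ∀ n, wr j n j = 0 := by intro n; cases n <;> simp [wr]
    apply tendsto_nhds_unique (hlim j)
    simp [this]
  have hrec : ∀ t, t ≠ j → L t = (L (t - 1) + L (t + 1)) / 2 := by
    intro t ht
    have h1 : Tendsto (fun n => wr j (n + 1) t) atTop (nhds (L t)) :=
      (tendsto_add_atTop_iff_nat 1).2 (hlim t)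
    have h2 : Tendsto (fun n => (wr j n (t - 1) + wr j n (t + 1)) / 2) atTop
        (nhds ((L (t - 1) + L (t + 1)) / 2)) := ((hlim _).add (hlim _)).div_const 2
    refine tendsto_nhds_unique h1 (h2.congr (fun n => ?_))
    conv_rhs => unfold wr
    rw [if_neg ht]
  have hup : ∀ k : ℕ, L (j + k) = k * L (j + 1) ∧ L (j + k + 1) = (k + 1) * L (j + 1) := by
    intro k
    induction k with
    | zero => simp [hLj]
    | succ k ih =>
      have h1 := hrec (j + k + 1) (by omega)
      rw [show j + (k : ℤ) + 1 - 1 = j + k by ring] at h1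
      rw [ih.1, ih.2] at h1
      push_cast
      rw [show j + ((k : ℤ) + 1) = j + k + 1 by ring]
      refine ⟨ih.2, ?_⟩
      linarith
  have hdn : ∀ k : ℕ, L (j - k) = k * L (j - 1) ∧ L (j - k - 1) = (k + 1) * L (j - 1) := by
    intro k
    induction k with
    | zero => simp [hLj]
    | succ k ih =>
      have h1 := hrec (j - k - 1) (by omega)
      rw [show j - (k : ℤ) - 1 + 1 = j - k by ring] at h1
      rw [ih.1, ih.2] at h1
      push_cast
      rw [show j - ((k : ℤ) + 1) = j - k - 1 by ring]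
      refine ⟨ih.2, ?_⟩
      linarith
  have bdd0 : ∀ c : ℝ, 0 ≤ c → (∀ k : ℕ, (k : ℝ) * c ≤ 1) → c = 0 := by
    intro c hc h
    by_contra hne
    have hpos : 0 < c := lt_of_le_of_ne hc (Ne.symm hne)
    obtain ⟨k, hk⟩ := exists_nat_gt (1 / c)
    rw [div_lt_iff₀ hpos] at hk
    exact absurd (h k) (not_le.2 hk)
  have hu0 : L (j + 1) = 0 := bdd0 _ (hL0 _) (fun k => by rw [← (hup k).1]; exact hL1 _)
  have hd0 : L (j - 1) = 0 := bdd0 _ (hL0 _) (fun k => by rw [← (hdn k).1]; exact hL1 _)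
  have hall : L t = 0 := by
    rcases le_total j t with h | h
    · obtain ⟨k, hk⟩ := Int.eq_ofNat_of_zero_le (sub_nonneg.2 h)
      have : t = j + k := by linarith
      rw [this, (hup k).1, hu0, mul_zero]
    · obtain ⟨k, hk⟩ := Int.eq_ofNat_of_zero_le (sub_nonneg.2 h)
      have : t = j - k := by linarith
      rw [this, (hdn k).1, hd0, mul_zero]
  rw [← hall]
  exact hlim t

/-! ### the walk -/

instance : MeasurableSpace Vtx := ⊤

instance : DiscreteMeasurableSpace Vtx := ⟨fun _ => trivial⟩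

instance : Countable Vtx := by
  have : Function.Injective (fun x : Vtx => (x.t, x.a, x.b, x.z)) := by
    rintro ⟨t, a, b, z⟩ ⟨t', a', b', z'⟩ h
    simp at h
    simp [h]
  exact this.countable

lemma kernel_lint (x : Vtx) (F : Vtx → ℝ≥0∞) :
    ∫⁻ y, F y ∂(srwKernel Gr x) = PG F x := by
  classical
  have hne : (Gr.neighborFinset x).Nonempty := by
    rw [nbrFinset]
    apply Finset.card_pos.1
    rw [card_nbrs]; norm_num
  have h1 : srwKernel Gr x = (PMF.uniformOfFinset (Gr.neighborFinset x) hne).toMeasure := by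
    change (srwStep Gr x).toMeasure = _
    unfold srwStep
    rw [dif_pos hne]
  rw [h1, lintegral_countable']
  simp only [PMF.toMeasure_apply_singleton _ _ (MeasurableSet.singleton _), PMF.uniformOfFinset_apply]
  unfold PG
  rw [tsum_eq_sum (s := nbrs x)]
  · rw [div_eq_mul_inv, Finset.sum_mul]
    apply Finset.sum_congr rfl
    intro y hy
    rw [nbrFinset, if_pos hy, card_nbrs]
    norm_num
  · intro y hy
    rw [nbrFinset, if_neg hy, mul_zero]

abbrev P (x : Vtx) : Measure (ℕ → Vtx) := srw Gr x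

lemma markov' (x : Vtx) (n : ℕ) (F : ((i : Finset.Iic n) → Vtx) → ℝ≥0∞) (hF : Measurable F)
    (f : Vtx → ℝ≥0∞) :
    ∫⁻ ω, F (Preorder.frestrictLe n ω) * f (ω (n + 1)) ∂(P x)
      = ∫⁻ ω, F (Preorder.frestrictLe n ω) * PG f (ω n) ∂(P x) := by
  rw [markov Gr x n F hF f]
  simp only [kernel_lint]

lemma start (x : Vtx) (f : Vtx → ℝ≥0∞) : ∫⁻ ω, f (ω 0) ∂(P x) = f x := by
  have h0 : P x = Kernel.traj (X := fun _ => Vtx) (srwHistory Gr) 0 (fun _ => x) := by
    change Kernel.trajMeasure (X := fun _ => Vtx) (Measure.dirac x) (srwHistory Gr) = _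
    unfold Kernel.trajMeasure
    rw [Measure.map_dirac' (by fun_prop), Measure.dirac_bind (by fun_prop)]
    rfl
  have h1 : (P x).map (Preorder.frestrictLe 0) = Measure.dirac (fun _ => x) := by
    rw [h0, Kernel.traj_map_frestrictLe_apply, Kernel.partialTraj_self, Kernel.id_apply]
  have h2 : ∫⁻ ω, f (ω 0) ∂(P x) =
      ∫⁻ h : ((i : Finset.Iic 0) → Vtx), f (h ⟨0, Finset.mem_Iic.2 le_rfl⟩)
        ∂((P x).map (Preorder.frestrictLe 0)) := by
    rw [lintegral_map]
    · rfl
    · exact (Measurable.of_discrete (f := f)).comp (measurable_pi_apply _)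
    · fun_prop
  rw [h2, h1]
  exact lintegral_dirac' (fun _ => x)
    (f := fun h : ((i : Finset.Iic 0) → Vtx) => f (h ⟨0, Finset.mem_Iic.2 le_rfl⟩))
    ((Measurable.of_discrete (f := f)).comp (measurable_pi_apply _))

lemma meas_comp (n : ℕ) (f : Vtx → ℝ≥0∞) : Measurable (fun ω : ℕ → Vtx => f (ω n)) :=
  (Measurable.of_discrete (f := f)).comp (measurable_pi_apply _)

lemma step_adj (x : Vtx) : ∀ᵐ ω ∂(P x), ∀ n, ω (n + 1) ∈ nbrs (ω n) := by
  rw [ae_all_iff]
  intro n
  have hv : ∀ v : Vtx, ∀ᵐ ω ∂(P x), ω n = v → ω (n + 1) ∈ nbrs v := by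
    intro v
    classical
    have h := markov' x n (fun h => if h ⟨n, Finset.mem_Iic.2 le_rfl⟩ = v then 1 else 0)
      ((Measurable.of_discrete (f := fun y : Vtx => if y = v then (1 : ℝ≥0∞) else 0)).comp
        (measurable_pi_apply _)) (fun y => if y ∈ nbrs v then 0 else 1)
    have h2 : ∫⁻ ω, (if ω n = v then (1 : ℝ≥0∞) else 0) *
        PG (fun y => if y ∈ nbrs v then 0 else 1) (ω n) ∂(P x) = 0 := by
      refine (lintegral_congr (g := fun _ => 0) fun ω => ?_).trans lintegral_zero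
      by_cases hω : ω n = v
      · have : PG (fun y => if y ∈ nbrs v then 0 else 1) v = 0 :=
          (PG_congr (fun y hy => by simp [hy])).trans (PG_const 0 v)
        rw [hω, this, mul_zero]
      · simp [hω]
    have h3 : ∫⁻ ω, (if ω n = v then (1 : ℝ≥0∞) else 0) *
        (if ω (n + 1) ∈ nbrs v then 0 else 1) ∂(P x) = 0 := Eq.trans h h2
    have hm : Measurable (fun ω : ℕ → Vtx => (if ω n = v then (1 : ℝ≥0∞) else 0) *
        (if ω (n + 1) ∈ nbrs v then 0 else 1)) :=
      (meas_comp n (fun y : Vtx => if y = v then (1 : ℝ≥0∞) else 0)).mul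
        (meas_comp (n + 1) (fun y => if y ∈ nbrs v then 0 else 1))
    rw [lintegral_eq_zero_iff hm] at h3
    filter_upwards [h3] with ω hω h4
    by_contra h5
    simp [h4, h5] at hω
  have := ae_all_iff.2 hv
  filter_upwards [this] with ω hω
  exact hω _ rfl

lemma Rv_nbr (x y : Vtx) (h : y ∈ nbrs x) : Rv y ≤ 8 * Rv x := by
  have h1 := Rv_ge x
  unfold PG at h1
  rw [ENNReal.div_le_iff_le_mul (by norm_num) (by norm_num)] at h1
  rw [mul_comm]
  exact (Finset.single_le_sum (f := Rv) (fun _ _ => zero_le) h).trans h1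

lemma Rv_finite (x : Vtx) : Rv x ≠ ∞ := by
  have key : ∀ (y x : Vtx), Gr.Walk y x → Rv y ≠ ∞ → Rv x ≠ ∞ := by
    intro y x w
    induction w with
    | nil => exact id
    | cons hadj _ ih =>
      intro h
      apply ih
      exact ne_top_of_le_ne_top (by finiteness) (Rv_nbr _ _ hadj)
  obtain ⟨w⟩ : Gr.Reachable ⟨0, 0, 0, 0⟩ x := gr_connected.preconnected _ _
  exact key _ _ w R_finite_zero

lemma spec_sum (x : Vtx) (n : ℕ) :
    (∑ k ∈ Finset.range n, P x {ω | ω k ∈ Spec}) + ∫⁻ ω, Rv (ω n) ∂(P x) ≤ Rv x := by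
  classical
  induction n with
  | zero => simp [start x Rv]
  | succ n ih =>
    refine le_trans ?_ ih
    rw [Finset.sum_range_succ, add_assoc]
    gcongr
    have h1 : P x {ω | ω n ∈ Spec} = ∫⁻ ω, (if ω n ∈ Spec then 1 else 0) ∂(P x) := by
      have hm : MeasurableSet {ω : ℕ → Vtx | ω n ∈ Spec} :=
        (MeasurableSet.of_discrete (s := Spec)).preimage (measurable_pi_apply n)
      rw [← lintegral_indicator_one hm]
      rfl
    have h2 := markov' x n (fun _ => 1) measurable_const Rv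
    simp only [one_mul] at h2
    rw [h1, h2, ← lintegral_add_left (meas_comp n (fun y => if y ∈ Spec then 1 else 0))]
    apply lintegral_mono
    intro ω
    by_cases h : ω n ∈ Spec
    · simp only [h, if_true]
      exact Rv_spec _ h
    · simp only [h, if_false, zero_add]
      exact Rv_ge _

lemma ae_not_spec (x : Vtx) : ∀ᵐ ω ∂(P x), ∀ᶠ n in atTop, ω n ∉ Spec := by
  have h1 : ∑' n, P x {ω | ω n ∈ Spec} ≠ ∞ := by
    refine ne_top_of_le_ne_top (Rv_finite x) ?_
    rw [ENNReal.tsum_eq_iSup_nat]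
    apply iSup_le
    intro n
    exact le_self_add.trans (spec_sum x n)
  exact ae_eventually_notMem h1

def w (j : ℤ) (n : ℕ) (x : Vtx) : ℝ≥0∞ := ENNReal.ofReal (wr j n x.t)

lemma w_succ (j : ℤ) (n : ℕ) (x : Vtx) : w j (n + 1) x = if x.t = j then 0 else PG (w j n) x := by
  unfold w
  conv_lhs => unfold wr
  split_ifs with h
  · simp
  · unfold PG
    rw [sum_nbrs]
    unfold up dn
    simp only
    rw [ENNReal.ofReal_div_of_pos (by norm_num),
      ENNReal.ofReal_add (wr_nonneg _ _ _) (wr_nonneg _ _ _)]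
    simp only [ENNReal.ofReal_ofNat]
    rw [ENNReal.div_eq_div_iff (by norm_num) (by norm_num) (by norm_num) (by norm_num)]
    ring

lemma avoid (x : Vtx) (j : ℤ) (m M k : ℕ) :
    ∫⁻ ω, (if ∀ i < k, (ω (m + i)).t ≠ j then 1 else 0) * w j M (ω (m + k)) ∂(P x)
      = P x {ω | ∀ i < k + M + 1, (ω (m + i)).t ≠ j} := by
  classical
  have hmeasSet : ∀ k, MeasurableSet {ω : ℕ → Vtx | ∀ i < k, (ω (m + i)).t ≠ j} := by
    intro k
    have : {ω : ℕ → Vtx | ∀ i < k, (ω (m + i)).t ≠ j} =
        ⋂ i : ℕ, ⋂ _ : i < k, (fun ω : ℕ → Vtx => ω (m + i)) ⁻¹' {y | y.t ≠ j} := by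
      ext ω; simp
    rw [this]
    exact MeasurableSet.iInter fun i => MeasurableSet.iInter fun _ =>
      MeasurableSet.of_discrete.preimage (measurable_pi_apply _)
  induction M generalizing k with
  | zero =>
    rw [← lintegral_indicator_one (hmeasSet _)]
    apply lintegral_congr
    intro ω
    by_cases h : ∀ i < k, (ω (m + i)).t ≠ j
    · by_cases h2 : (ω (m + k)).t = j
      · have : ω ∉ {ω : ℕ → Vtx | ∀ i < k + 0 + 1, (ω (m + i)).t ≠ j} := by
          intro h3
          exact h3 k (by omega) h2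
        rw [Set.indicator_of_notMem this]
        simp [w, wr, h2]
      · have : ω ∈ {ω : ℕ → Vtx | ∀ i < k + 0 + 1, (ω (m + i)).t ≠ j} := by
          intro i hi
          rcases Nat.lt_or_ge i k with h3 | h3
          · exact h i h3
          · have : i = k := by omega
            rw [this]; exact h2
        rw [Set.indicator_of_mem this, if_pos h]
        simp [w, wr, h2]
    · have : ω ∉ {ω : ℕ → Vtx | ∀ i < k + 0 + 1, (ω (m + i)).t ≠ j} := by
        intro h3
        exact h (fun i hi => h3 i (by omega))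
      rw [Set.indicator_of_notMem this, if_neg h]
      simp
  | succ M ih =>
    rw [show k + (M + 1) + 1 = (k + 1) + M + 1 by ring, ← ih (k + 1)]
    have hM := markov' x (m + k)
      (fun h => if ∀ i, (hi : i < k + 1) → (h ⟨m + i, Finset.mem_Iic.2 (by omega)⟩).t ≠ j then 1 else 0)
      (by
        have hs : MeasurableSet {h : ((i : Finset.Iic (m + k)) → Vtx) |
            ∀ i, (hi : i < k + 1) → (h ⟨m + i, Finset.mem_Iic.2 (by omega)⟩).t ≠ j} := by
          have : {h : ((i : Finset.Iic (m + k)) → Vtx) |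
            ∀ i, (hi : i < k + 1) → (h ⟨m + i, Finset.mem_Iic.2 (by omega)⟩).t ≠ j} =
            ⋂ i : ℕ, ⋂ hi : i < k + 1, (fun h : ((i : Finset.Iic (m + k)) → Vtx) =>
              h ⟨m + i, Finset.mem_Iic.2 (by omega)⟩) ⁻¹' {y | y.t ≠ j} := by
            ext ω; simp
          rw [this]
          exact MeasurableSet.iInter fun i => MeasurableSet.iInter fun _ =>
            MeasurableSet.of_discrete.preimage (measurable_pi_apply _)
        exact Measurable.ite hs measurable_const measurable_const) (w j M)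
    have e1 : ∀ ω : ℕ → Vtx, (if ∀ i < k + 1, (ω (m + i)).t ≠ j then (1 : ℝ≥0∞) else 0) * PG (w j M) (ω (m + k))
        = (if ∀ i < k, (ω (m + i)).t ≠ j then (1 : ℝ≥0∞) else 0) * w j (M + 1) (ω (m + k)) := by
      intro ω
      rw [w_succ]
      by_cases h : ∀ i < k, (ω (m + i)).t ≠ j
      · by_cases h2 : (ω (m + k)).t = j
        · have : ¬ ∀ i < k + 1, (ω (m + i)).t ≠ j := fun h3 => h3 k (by omega) h2
          rw [if_neg this, if_pos h, if_pos h2]
          simp
        · have : ∀ i < k + 1, (ω (m + i)).t ≠ j := by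
            intro i hi
            rcases Nat.lt_or_ge i k with h3 | h3
            · exact h i h3
            · have : i = k := by omega
              rw [this]; exact h2
          rw [if_pos this, if_pos h, if_neg h2]
      · have : ¬ ∀ i < k + 1, (ω (m + i)).t ≠ j := fun h3 => h (fun i hi => h3 i (by omega))
        rw [if_neg this, if_neg h]
        simp
    have e2 : ∫⁻ ω, (if ∀ i < k, (ω (m + i)).t ≠ j then 1 else 0) * w j (M + 1) (ω (m + k)) ∂(P x)
        = ∫⁻ ω, (if ∀ i < k + 1, (ω (m + i)).t ≠ j then (1 : ℝ≥0∞) else 0) * PG (w j M) (ω (m + k)) ∂(P x) :=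
      lintegral_congr (fun ω => (e1 ω).symm)
    rw [e2]
    exact hM.symm

lemma avoid_zero (x : Vtx) (j : ℤ) (m : ℕ) : P x {ω | ∀ i, (ω (m + i)).t ≠ j} = 0 := by
  have h1 : ∀ M, P x {ω | ∀ i, (ω (m + i)).t ≠ j} ≤ ∫⁻ ω, w j M (ω m) ∂(P x) := by
    intro M
    have := avoid x j m M 0
    simp only [not_lt_zero, false_imp_iff, implies_true, if_true, one_mul, add_zero, zero_add] at this
    rw [this]
    apply measure_mono
    intro ω hω i _
    exact hω i
  have h2 : Tendsto (fun M => ∫⁻ ω, w j M (ω m) ∂(P x)) atTop (nhds (∫⁻ ω, (0 : ℝ≥0∞) ∂(P x))) := by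
    apply tendsto_lintegral_of_dominated_convergence (fun _ => 1)
    · intro M; exact meas_comp m (w j M)
    · intro M
      apply ae_of_all
      intro ω
      unfold w
      exact ENNReal.ofReal_le_one.2 (wr_le_one _ _ _)
    · simp
    · apply ae_of_all
      intro ω
      unfold w
      rw [← ENNReal.ofReal_zero]
      exact ENNReal.tendsto_ofReal (wr_tendsto j _)
  rw [lintegral_zero] at h2
  exact le_antisymm (ge_of_tendsto' h2 h1) zero_le

lemma ae_visit_t (x : Vtx) : ∀ᵐ ω ∂(P x), ∀ j : ℤ, ∀ m : ℕ, ∃ i, (ω (m + i)).t = j := by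
  rw [ae_all_iff]
  intro j
  rw [ae_all_iff]
  intro m
  rw [ae_iff]
  have := avoid_zero x j m
  simpa using this

lemma ae_visits (x : Vtx) : ∀ᵐ ω ∂(P x), ∀ k : ℤ, ∃ᶠ n in atTop, ∃ y ∈ Dom, ω n = k +ᵥ y := by
  filter_upwards [ae_visit_t x, ae_not_spec x, step_adj x] with ω h1 h2 h3 k
  obtain ⟨N, hN⟩ := eventually_atTop.1 h2
  have hz : ∀ n, N ≤ n → (ω n).z = (ω N).z := by
    intro n hn
    induction n, hn using Nat.le_induction with
    | base => rfl
    | succ n hn ih =>
      rw [← ih]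
      exact z_of_notSpec _ (hN n hn) _ (h3 n)
  rw [frequently_atTop]
  intro m
  obtain ⟨i, hi⟩ := h1 (2 * ((ω N).z - k)) (max m N)
  refine ⟨max m N + i, by omega, ⟨(ω (max m N + i)).t, (ω (max m N + i)).a, (ω (max m N + i)).b,
    (ω (max m N + i)).z - k⟩, ?_, ?_⟩
  · have := hz (max m N + i) (by omega)
    change (ω (max m N + i)).z - k = (ω (max m N + i)).t / 2
    rw [this, hi]
    omega
  · rw [vadd_def]
    simp

/-! ### the quotient -/

lemma quot_mk (t a b z : ℤ) : (Quotient.mk (AddAction.orbitRel ℤ Vtx) ⟨t, a, b, z⟩)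
    = Quotient.mk (AddAction.orbitRel ℤ Vtx) ⟨t, a, b, 0⟩ := by
  apply Quotient.sound
  change (⟨t, a, b, z⟩ : Vtx) ∈ AddAction.orbit ℤ (⟨t, a, b, 0⟩ : Vtx)
  rw [AddAction.mem_orbit_iff]
  exact ⟨z, by simp [vadd_def]⟩

def steps : Finset (ℤ × ℤ × ℤ) :=
  {(1, 0, 0), (1, 1, 0), (1, 0, 1), (1, 1, 1), (-1, 0, 0), (-1, -1, 0), (-1, 0, -1), (-1, -1, -1)}

lemma quotLiouville : QuotientLiouville Gr := by
  intro f hC hharm
  obtain ⟨C, hC⟩ := hC
  set g : ℤ × ℤ × ℤ → ℝ := fun p => f (Quotient.mk _ ⟨p.1, p.2.1, p.2.2, 0⟩) with hg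
  have hfg : ∀ x : Vtx, f (Quotient.mk _ x) = g (x.t, x.a, x.b) := by
    rintro ⟨t, a, b, z⟩
    rw [quot_mk]
  have hcard : (steps.card : ℝ) = 8 := by
    have : steps.card = 8 := by decide
    rw [this]; norm_num
  have hgh : ∀ p, (steps.card : ℝ) * g p = ∑ s ∈ steps, g (p + s) := by
    rintro ⟨t, a, b⟩
    have h := hharm ⟨t, a, b, 0⟩
    rw [degree_eq, nbrFinset, sum_nbrs, hfg] at h
    simp only [hfg] at h
    unfold up dn at h
    simp only at h
    rw [hcard, h]
    unfold steps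
    rw [Finset.sum_insert (by decide), Finset.sum_insert (by decide), Finset.sum_insert (by decide),
      Finset.sum_insert (by decide), Finset.sum_insert (by decide), Finset.sum_insert (by decide),
      Finset.sum_insert (by decide), Finset.sum_singleton]
    simp only [Prod.mk_add_mk, add_zero, sub_zero, ← sub_eq_add_neg]
    push_cast
    ring
  have hinv := choquet steps g C (fun p => hC _) hgh
  have ht : ∀ p : ℤ × ℤ × ℤ, g (p + (1, 0, 0)) = g p := hinv _ (by decide)
  have ha : ∀ p : ℤ × ℤ × ℤ, g (p + (1, 1, 0)) = g p := hinv _ (by decide)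
  have hb : ∀ p : ℤ × ℤ × ℤ, g (p + (1, 0, 1)) = g p := hinv _ (by decide)
  have key : ∀ t a b : ℤ, g (t, a, b) = g (0, 0, 0) := by
    intro t a b
    have h1 := reach_int (r := fun x y : ℝ => x = y) (fun _ => rfl) (fun _ _ h => h.symm)
      (fun _ _ _ h1 h2 => h1.trans h2) (fun n => g (n, a, b)) (fun n => by
        have := ht (n, a, b)
        simp only [Prod.mk_add_mk, add_zero] at this
        exact this.symm) t 0
    have h2 := reach_int (r := fun x y : ℝ => x = y) (fun _ => rfl) (fun _ _ h => h.symm)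
      (fun _ _ _ h1 h2 => h1.trans h2) (fun n => g (0, n, b)) (fun n => by
        have h3 := ha (-1, n, b)
        have h4 := ht (-1, n, b)
        simp only [Prod.mk_add_mk, add_zero] at h3 h4
        norm_num at h3 h4
        exact h4.trans h3.symm) a 0
    have h3 := reach_int (r := fun x y : ℝ => x = y) (fun _ => rfl) (fun _ _ h => h.symm)
      (fun _ _ _ h1 h2 => h1.trans h2) (fun n => g (0, 0, n)) (fun n => by
        have h3 := hb (-1, 0, n)
        have h4 := ht (-1, 0, n)
        simp only [Prod.mk_add_mk, add_zero] at h3 h4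
        norm_num at h3 h4
        exact h4.trans h3.symm) b 0
    exact h1.trans (h2.trans h3)
  refine ⟨g (0, 0, 0), fun q => ?_⟩
  induction q using Quotient.inductionOn with
  | h x => rw [hfg, key]

lemma not_liouville : ¬ Liouville Gr := by
  intro h
  apply hR_nonconst
  apply h hR
  · refine ⟨1, fun x => ?_⟩
    unfold hR
    rw [abs_of_nonneg ENNReal.toReal_nonneg]
    exact ENNReal.toReal_le_of_le_ofReal (by norm_num) (by simpa using hE_le_one x)
  · intro x
    rw [nbrFinset, degree_eq]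
    push_cast
    exact hR_harm x

end

/-- There are a connected, 8-regular graph `G`, a free action of `ℤ` on `G` by graph automorphisms,
and a fundamental domain `D` that induces a connected subgraph, such that `G/ℤ` is Liouville and
simple random walk on `G` (from any vertex) almost surely visits every translate `k · D`
infinitely often, and yet `G` carries a nonconstant bounded harmonic function. -/
theorem result :
    ∃ (V : Type) (_ : MeasurableSpace V) (_ : DiscreteMeasurableSpace V)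
      (G : SimpleGraph V) (_ : G.LocallyFinite) (_ : AddAction ℤ V) (D : Set V),
      G.Connected ∧ (∀ x, G.degree x = 8) ∧
      -- `ℤ` acts by graph automorphisms, and the action is free
      (∀ (k : ℤ) (x y : V), G.Adj (k +ᵥ x) (k +ᵥ y) ↔ G.Adj x y) ∧
      (∀ (k : ℤ), k ≠ 0 → ∀ x : V, k +ᵥ x ≠ x) ∧
      -- `H = G/ℤ` is Liouville
      QuotientLiouville G ∧
      -- `D` contains exactly one vertex of each orbit, and it is connected
      (∀ x : V, ∃! y, y ∈ D ∧ y ∈ AddAction.orbit ℤ x) ∧ (G.induce D).Connected ∧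
      -- simple random walk almost surely visits every translate of `D` infinitely often
      (∀ x : V, ∀ᵐ ω ∂(srw G x), ∀ k : ℤ, ∃ᶠ n in atTop, ∃ y ∈ D, ω n = k +ᵥ y) ∧
      -- `G` is not Liouville
      ¬ Liouville G :=
  ⟨Vtx, inferInstance, inferInstance, Gr, inferInstance, inferInstance, Dom,
    gr_connected, degree_eq, adj_vadd, fun k hk x => free_vadd k hk x, quotLiouville,
    dom_fund, dom_connected, ae_visits, not_liouville⟩

end Pool.Agent.Results.MP_09df17_pr.ZCover
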